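import Mathlib

/-!
# Numerics for the growth of `dim V ^ N`
-/

set_option autoImplicit false

namespace Pool.Agent.TGh62

open Filter Topology

/-- A good exponent: `a N / N ^ n ≤ (1 + ε) a m / m ^ n` for all `N ≥ m`. -/
theorem exists_good (n C : ℕ) (a : ℕ → ℕ) (ha : ∀ s, a s ≤ C * (s + 1) ^ n) (ha1 : ∀ s, 1 ≤ a s)
    {ε : ℝ} (hε : 0 < ε) (m₀ : ℕ) :
    ∃ m, m₀ ≤ m ∧ 1 ≤ m ∧ ∀ N, m ≤ N →
      (a N : ℝ) * (m : ℝ) ^ n ≤ (1 + ε) * a m * (N : ℝ) ^ n := by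
  by_contra hcon
  push Not at hcon
  let b : ℕ → ℝ := fun s => (a s : ℝ) / (s : ℝ) ^ n
  have key : ∀ m, m₀ ≤ m → 1 ≤ m → ∃ N, m₀ ≤ N ∧ 1 ≤ N ∧ (1 + ε) * b m ≤ b N := by
    intro m h1 h2
    obtain ⟨N, h3, h4⟩ := hcon m h1 h2
    refine ⟨N, h1.trans h3, h2.trans h3, ?_⟩
    have hm : (0 : ℝ) < (m : ℝ) ^ n := by
      have : (0 : ℝ) < m := by exact_mod_cast h2
      positivity
    have hN : (0 : ℝ) < (N : ℝ) ^ n := by
      have : (0 : ℝ) < N := by exact_mod_cast h2.trans h3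
      positivity
    simp only [b]
    rw [← mul_div_assoc, div_le_div_iff₀ hm hN]
    exact h4.le
  have hpow : ∀ K : ℕ, ∃ s, m₀ ≤ s ∧ 1 ≤ s ∧ (1 + ε) ^ K * b (m₀ + 1) ≤ b s := by
    intro K
    induction K with
    | zero => exact ⟨m₀ + 1, by omega, by omega, by simp⟩
    | succ K ih =>
      obtain ⟨s, h1, h2, h3⟩ := ih
      obtain ⟨s', h1', h2', h3'⟩ := key s h1 h2
      refine ⟨s', h1', h2', le_trans ?_ h3'⟩
      rw [pow_succ', mul_assoc]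
      exact mul_le_mul_of_nonneg_left h3 (by positivity)
  have hb0 : 0 < b (m₀ + 1) := by
    have : (0 : ℝ) < a (m₀ + 1) := by exact_mod_cast ha1 (m₀ + 1)
    simp only [b]
    positivity
  have hbound : ∀ s, 1 ≤ s → b s ≤ C * 2 ^ n := by
    intro s hs
    have hspos : (0 : ℝ) < s := by exact_mod_cast hs
    simp only [b]
    rw [div_le_iff₀ (by positivity)]
    have h1 : (a s : ℝ) ≤ C * ((s : ℝ) + 1) ^ n := by exact_mod_cast ha s
    refine h1.trans ?_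
    rw [mul_assoc, ← mul_pow]
    refine mul_le_mul_of_nonneg_left (pow_le_pow_left₀ (by positivity) ?_ n) (by positivity)
    have : (1 : ℝ) ≤ s := by exact_mod_cast hs
    linarith
  have h1 : Tendsto (fun K : ℕ => (1 + ε) ^ K * b (m₀ + 1)) atTop atTop :=
    (tendsto_pow_atTop_atTop_of_one_lt (by linarith)).atTop_mul_const hb0
  obtain ⟨K, hK⟩ := (h1.eventually (eventually_gt_atTop ((C : ℝ) * 2 ^ n))).exists
  obtain ⟨s, -, h2, h3⟩ := hpow K
  have h4 := hbound s h2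
  linarith

/-- `D κ r ^ n ≤ B (w m r + c) ^ n / m ^ n` for all `r` implies `D κ ≤ B w ^ n`. -/
theorem limit_le (n m w c : ℕ) (hm : 1 ≤ m) {X B : ℝ}
    (h : ∀ r : ℕ, 1 ≤ r → X * (r : ℝ) ^ n * (m : ℝ) ^ n ≤ B * ((w * m * r + c : ℕ) : ℝ) ^ n) :
    X ≤ B * (w : ℝ) ^ n := by
  have hm0 : (0 : ℝ) < m := by exact_mod_cast hm
  have h1 : ∀ᶠ r : ℕ in atTop, X ≤ B * ((w : ℝ) + (c : ℝ) / m / r) ^ n := by
    filter_upwards [eventually_ge_atTop 1] with r hr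
    have hr0 : (0 : ℝ) < r := by exact_mod_cast hr
    have h2 := h r hr
    have h3 : (((w * m * r + c : ℕ) : ℝ)) = ((w : ℝ) + (c : ℝ) / m / r) * (r * m) := by
      push_cast
      field_simp
    rw [h3, mul_pow, mul_pow, ← mul_assoc, mul_assoc X] at h2
    exact le_of_mul_le_mul_right h2 (by positivity)
  have h2 : Tendsto (fun r : ℕ => B * ((w : ℝ) + (c : ℝ) / m / r) ^ n) atTop
      (𝓝 (B * ((w : ℝ) + 0) ^ n)) := by
    refine Tendsto.const_mul _ (Tendsto.pow (Tendsto.const_add _ ?_) n)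
    exact tendsto_const_div_atTop_nhds_zero_nat _
  rw [add_zero] at h2
  exact ge_of_tendsto h2 h1

/-- `(r + n).choose n ≥ r ^ n / n!`. -/
theorem pow_le_fact_choose (n r : ℕ) : (r : ℝ) ^ n ≤ n.factorial * ((r + n).choose n : ℕ) := by
  have h := Nat.pow_succ_le_ascFactorial (r + 1) n
  rw [Nat.ascFactorial_eq_factorial_mul_choose] at h
  have h1 : (r : ℝ) ^ n ≤ ((r + 1 : ℕ) : ℝ) ^ n := by
    refine pow_le_pow_left₀ (by positivity) ?_ n
    push_cast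
    linarith
  refine h1.trans ?_
  exact_mod_cast h

/-- `a (m + 1) ≤ (1 + ε) (1 + 1/m) ^ n a m`. -/
theorem good_succ {n : ℕ} {a : ℕ → ℕ} {ε : ℝ} {m : ℕ} (hm : 1 ≤ m)
    (h : ∀ N, m ≤ N → (a N : ℝ) * (m : ℝ) ^ n ≤ (1 + ε) * a m * (N : ℝ) ^ n) (j : ℕ) :
    (a (m + j) : ℝ) ≤ (1 + ε) * (1 + j / m) ^ n * a m := by
  have hm0 : (0 : ℝ) < m := by exact_mod_cast hm
  have h1 := h (m + j) (by omega)
  have h2 : ((m + j : ℕ) : ℝ) = (1 + j / m) * m := by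
    push_cast
    field_simp
  rw [h2, mul_pow, ← mul_assoc] at h1
  have h3 := le_of_mul_le_mul_right h1 (by positivity)
  linarith

end Pool.Agent.TGh62
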