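import Pool.Agent.Lib.TG_h62.Grow
import Pool.Agent.Lib.TG_h62.Num

/-!
# Bounds for degrees `[K : k(y)]` by `dim V ^ m`
-/

set_option autoImplicit false

namespace Pool.Agent.TGh62

open Submodule Module

variable {k K : Type*} [Field k] [Field K] [Algebra k K] {n : ℕ}

/-- `a N = dim V ^ N`. -/
noncomputable def aN (V : Submodule k K) (N : ℕ) : ℕ := finrank k (V ^ N : Submodule k K)

/-- `m` is a good exponent for `V` (up to `ε`). -/
def Good (V : Submodule k K) (n : ℕ) (ε : ℝ) (m : ℕ) : Prop :=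
  1 ≤ m ∧ ∀ N, m ≤ N → (aN V N : ℝ) * (m : ℝ) ^ n ≤ (1 + ε) * aN V m * (N : ℝ) ^ n

theorem aN_growth (V : Submodule k K) [FiniteDimensional k V] (h1 : (1 : K) ∈ V)
    (hn : Algebra.trdeg k K ≤ n) : ∃ C : ℕ, ∀ s, aN V s ≤ C * (s + 1) ^ n := by
  obtain ⟨C, hC⟩ := ALB.growth n hn V
  have h2 : (1 ⊔ V : Submodule k K) = V := sup_eq_right.2 (Submodule.one_le.2 h1)
  rw [h2] at hC
  exact ⟨C, hC⟩

theorem aN_pos (V : Submodule k K) [FiniteDimensional k V] (h1 : (1 : K) ∈ V) (s : ℕ) :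
    1 ≤ aN V s := by
  have hfd : FiniteDimensional k (V ^ s : Submodule k K) := ALB.finite_pow _ _
  rw [Nat.one_le_iff_ne_zero]
  intro h
  have h2 := Submodule.finrank_eq_zero.1 h
  have h3 : (1 : K) ∈ V ^ s := by
    have := Submodule.pow_mem_pow V h1 s
    rwa [one_pow] at this
  rw [h2] at h3
  exact one_ne_zero ((Submodule.mem_bot k).1 h3)

theorem aN_mono (V : Submodule k K) [FiniteDimensional k V] (h1 : (1 : K) ∈ V) :
    Monotone (aN V) := by
  intro s t hst
  have hfd : FiniteDimensional k (V ^ t : Submodule k K) := ALB.finite_pow _ _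
  exact Submodule.finrank_mono (pow_le_pow_right₀ (Submodule.one_le.2 h1) hst)

/-- **(N)** -/
theorem exists_good_exp (V : Submodule k K) [FiniteDimensional k V] (h1 : (1 : K) ∈ V)
    (hn : Algebra.trdeg k K ≤ n) {ε : ℝ} (hε : 0 < ε) (m₀ : ℕ) :
    ∃ m, m₀ ≤ m ∧ Good V n ε m := by
  obtain ⟨C, hC⟩ := aN_growth V h1 hn
  obtain ⟨m, h2, h3, h4⟩ := exists_good n C (aN V) hC (aN_pos V h1) hε m₀
  exact ⟨m, h2, h3, h4⟩

theorem Good.succ {V : Submodule k K} {ε : ℝ} {m : ℕ} (h : Good V n ε m) (j : ℕ) :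
    (aN V (m + j) : ℝ) ≤ (1 + ε) * (1 + j / m) ^ n * aN V m := good_succ h.1 h.2 j

/-- The monomial `y ^ α`. -/
noncomputable def ymon (y : Fin n → K) (α : Fin n →₀ ℕ) : K := α.prod fun i e => y i ^ e

theorem linearIndependent_ymon {y : Fin n → K} (hy : AlgebraicIndependent k y) :
    LinearIndependent k (ymon y) := by
  have h2 := (MvPolynomial.basisMonomials (Fin n) k).linearIndependent
  have h3 := h2.map' (MvPolynomial.aeval y : MvPolynomial (Fin n) k →ₐ[k] K).toLinearMap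
    (LinearMap.ker_eq_bot.2 hy)
  have h4 : ymon y = (MvPolynomial.aeval y : MvPolynomial (Fin n) k →ₐ[k] K).toLinearMap ∘
      (MvPolynomial.basisMonomials (Fin n) k) := by
    funext α
    simp [ymon, MvPolynomial.aeval_monomial]
  rw [h4]
  exact h3

/-- **General lower bound.** -/
theorem card_mul_le {y : Fin n → K} (hy : AlgebraicIndependent k y) (A : Finset (Fin n →₀ ℕ))
    {D : ℕ} {b : Fin D → K}
    (hb : LinearIndependent (IntermediateField.adjoin k (Set.range y)) b)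
    (U : Submodule k K) [FiniteDimensional k U] {q : K} (hq : q ≠ 0)
    (hU : ∀ α ∈ A, ∀ j, q * ymon y α * b j ∈ U) : A.card * D ≤ finrank k U := by
  classical
  let y' : Fin n → IntermediateField.adjoin k (Set.range y) := fun i =>
    ⟨y i, IntermediateField.subset_adjoin k _ ⟨i, rfl⟩⟩
  have hy' : AlgebraicIndependent k y' := by
    have h1 : AlgebraicIndependent k ((IntermediateField.adjoin k (Set.range y)).val ∘ y') := hy
    exact h1.of_comp _
  have hmon : ∀ α, ((ymon y' α : IntermediateField.adjoin k (Set.range y)) : K) = ymon y α := by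
    intro α
    have h1 : ((ymon y' α : IntermediateField.adjoin k (Set.range y)) : K) =
      (IntermediateField.adjoin k (Set.range y)).val (ymon y' α) := rfl
    rw [h1]
    unfold ymon
    rw [Finsupp.prod, Finsupp.prod, map_prod]
    simp [y']
  have h1 := linearIndependent_smul (linearIndependent_ymon hy') hb
  have h2 := h1.comp (fun p : A × Fin D => (((p.1 : Fin n →₀ ℕ)), p.2)) (by
    rintro ⟨a, i⟩ ⟨b, j⟩ h
    simp only [Prod.mk.injEq] at h
    rw [Prod.mk.injEq]
    exact ⟨Subtype.ext h.1, h.2⟩)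
  have h3 := h2.map' (LinearMap.mulLeft k q)
      (LinearMap.ker_eq_bot.2 (mul_right_injective₀ hq))
  have h4 : ∀ p : A × Fin D, q * ymon y (p.1 : Fin n →₀ ℕ) * b p.2 ∈ U := fun p =>
    hU _ p.1.2 _
  have h5 : LinearIndependent k (fun p : A × Fin D => (⟨_, h4 p⟩ : U)) := by
    refine LinearIndependent.of_comp U.subtype ?_
    refine (show (U.subtype ∘ fun p : A × Fin D => (⟨_, h4 p⟩ : U)) =
      (LinearMap.mulLeft k q) ∘ ((fun p : (Fin n →₀ ℕ) × Fin D => ymon y' p.1 • b p.2) ∘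
        fun p : A × Fin D => (((p.1 : Fin n →₀ ℕ)), p.2)) from ?_) ▸ h3
    funext p
    simp only [Function.comp, Submodule.subtype_apply, LinearMap.mulLeft_apply]
    rw [← hmon, mul_assoc]
    rfl
  have h6 := h5.fintype_card_le_finrank
  rw [Fintype.card_prod, Fintype.card_coe, Fintype.card_fin] at h6
  exact h6

theorem mem_pow_of_mem_adjoin {V : Submodule k K} (h1 : (1 : K) ∈ V) {a : K}
    (ha : a ∈ Algebra.adjoin k (V : Set K)) : ∃ e, a ∈ V ^ e := by
  have hmono : ∀ {a b : ℕ}, a ≤ b → V ^ a ≤ V ^ b := fun h =>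
    pow_le_pow_right₀ (Submodule.one_le.2 h1) h
  induction ha using Algebra.adjoin_induction with
  | mem x hx => exact ⟨1, by rw [pow_one]; exact hx⟩
  | algebraMap r =>
    refine ⟨0, ?_⟩
    rw [pow_zero]
    exact Submodule.mem_one.2 ⟨r, rfl⟩
  | add x y' _ _ hx hy =>
    obtain ⟨a, ha⟩ := hx
    obtain ⟨b, hb⟩ := hy
    exact ⟨max a b, Submodule.add_mem _ (hmono (le_max_left a b) ha)
      (hmono (le_max_right a b) hb)⟩
  | mul x y' _ _ hx hy =>
    obtain ⟨a, ha⟩ := hx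
    obtain ⟨b, hb⟩ := hy
    refine ⟨a + b, ?_⟩
    rw [pow_add]
    exact Submodule.mul_mem_mul ha hb

/-- Common denominators for finitely many elements of `K = k(V)`. -/
theorem exists_common (V : Submodule k K) (h1 : (1 : K) ∈ V)
    (hV : IntermediateField.adjoin k (V : Set K) = ⊤) {ι : Type*} [Finite ι] (b : ι → K) :
    ∃ h : K, h ≠ 0 ∧ ∃ c, ∀ j, h * b j ∈ V ^ c := by
  classical
  have := Fintype.ofFinite ι
  have hmono : ∀ {a b : ℕ}, a ≤ b → V ^ a ≤ V ^ b := fun h =>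
    pow_le_pow_right₀ (Submodule.one_le.2 h1) h
  have hfrac : ∀ q : K, ∃ u ∈ Algebra.adjoin k (V : Set K), ∃ w ∈ Algebra.adjoin k (V : Set K),
      w ≠ 0 ∧ w * q = u := by
    intro q
    have hq : q ∈ IntermediateField.adjoin k (V : Set K) := by rw [hV]; trivial
    obtain ⟨u, hu, w, hw, hq⟩ := IntermediateField.mem_adjoin_iff_div.1 hq
    rcases eq_or_ne w 0 with h0 | h0
    · refine ⟨0, Subalgebra.zero_mem _, 1, Subalgebra.one_mem _, one_ne_zero, ?_⟩
      rw [hq, h0, div_zero, mul_zero]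
    · exact ⟨u, hu, w, hw, h0, by rw [hq, mul_div_cancel₀ _ h0]⟩
  choose u hu w hw hw0 huw using fun j => hfrac (b j)
  have h2 : ∀ j, ∃ e, (∏ i, w i) * b j ∈ V ^ e := by
    intro j
    refine mem_pow_of_mem_adjoin h1 ?_
    rw [← Finset.prod_erase_mul _ _ (Finset.mem_univ j), mul_assoc, huw]
    exact Subalgebra.mul_mem _ (Subalgebra.prod_mem _ fun j _ => hw j) (hu j)
  choose e he using h2
  exact ⟨∏ j, w j, Finset.prod_ne_zero_iff.2 fun j _ => hw0 j, Finset.univ.sup e, fun j =>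
    hmono (Finset.le_sup (Finset.mem_univ j)) (he j)⟩

/-- **(D)** -/
theorem deg_bound {V : Submodule k K} [FiniteDimensional k V] (h1 : (1 : K) ∈ V)
    (hV : IntermediateField.adjoin k (V : Set K) = ⊤) {ε : ℝ} {m : ℕ}
    (hm : Good V n ε m) {y : Fin n → K} (hy : AlgebraicIndependent k y)
    {D : ℕ} {b : Fin D → K}
    (hb : LinearIndependent (IntermediateField.adjoin k (Set.range y)) b) {w : ℕ} (hw : 1 ≤ w)
    {κ : ℝ} (A : ℕ → Finset (Fin n →₀ ℕ)) (hA : ∀ r : ℕ, κ * (r : ℝ) ^ n ≤ (A r).card)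
    (q : ℕ → K) (hq : ∀ r, q r ≠ 0) (hqy : ∀ r, ∀ α ∈ A r, q r * ymon y α ∈ V ^ (w * m * r)) :
    (D : ℝ) * κ ≤ (1 + ε) * (w : ℝ) ^ n * aN V m := by
  obtain ⟨h, h0, c, hc⟩ := exists_common V h1 hV b
  have h2 : ∀ r : ℕ, 1 ≤ r → (D * κ) * (r : ℝ) ^ n * (m : ℝ) ^ n ≤
      ((1 + ε) * aN V m) * ((w * m * r + c : ℕ) : ℝ) ^ n := by
    intro r hr
    have hfd : FiniteDimensional k (V ^ (w * m * r + c) : Submodule k K) := ALB.finite_pow _ _
    have h3 : (A r).card * D ≤ aN V (w * m * r + c) := by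
      refine card_mul_le hy (A r) hb _ (mul_ne_zero (hq r) h0) fun α hα j => ?_
      have h4 : q r * h * ymon y α * b j = (q r * ymon y α) * (h * b j) := by ring
      rw [h4, pow_add]
      exact Submodule.mul_mem_mul (hqy r α hα) (hc j)
    have h4 : m ≤ w * m * r + c := by
      calc m = 1 * m * 1 := by ring
        _ ≤ w * m * r := Nat.mul_le_mul (Nat.mul_le_mul hw le_rfl) hr
        _ ≤ _ := Nat.le_add_right _ _
    have h5 := hm.2 _ h4
    have h6 : ((A r).card : ℝ) * D ≤ aN V (w * m * r + c) := by exact_mod_cast h3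
    have hm0 : (0 : ℝ) ≤ (m : ℝ) ^ n := by positivity
    calc (D * κ) * (r : ℝ) ^ n * (m : ℝ) ^ n = (κ * (r : ℝ) ^ n) * D * (m : ℝ) ^ n := by ring
      _ ≤ (A r).card * D * (m : ℝ) ^ n := by
          refine mul_le_mul_of_nonneg_right (mul_le_mul_of_nonneg_right (hA r) ?_) hm0
          positivity
      _ ≤ aN V (w * m * r + c) * (m : ℝ) ^ n := mul_le_mul_of_nonneg_right h6 hm0
      _ ≤ _ := h5
  have h3 := limit_le n m w c hm.1 h2
  linarith

/-- The exponents of total degree at most `r`. -/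
noncomputable def expSet (n r : ℕ) : Finset (Fin n →₀ ℕ) :=
  Finset.univ.image (expo (n := n) (r := r))

theorem card_expSet (n r : ℕ) : (expSet n r).card = (r + n).choose n := by
  classical
  rw [expSet, Finset.card_image_of_injective _ expo_injective, Finset.card_univ, card_sym]

theorem mon_cons_eq (y : Fin n → K) {r : ℕ} (s : Sym (Fin (n + 1)) r) :
    mon (Fin.cons 1 y : Fin (n + 1) → K) s = ymon y (expo s) := by
  rw [mon_eq_aeval (k := K), MvPolynomial.aeval_monomial, map_one, one_mul]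
  rfl

/-- **(D1)** -/
theorem deg_le_fact {V : Submodule k K} [FiniteDimensional k V] (h1 : (1 : K) ∈ V)
    (hV : IntermediateField.adjoin k (V : Set K) = ⊤) {ε : ℝ} {m : ℕ}
    (hm : Good V n ε m) {F : Fin (n + 1) → K} (hF : ∀ i, F i ∈ V ^ m) (h0 : F 0 ≠ 0)
    (hy : AlgebraicIndependent k fun i : Fin n => F i.succ / F 0) {D : ℕ} {b : Fin D → K}
    (hb : LinearIndependent (rf k F) b) :
    (D : ℝ) ≤ (1 + ε) * n.factorial * aN V m := by
  have hfac : (0 : ℝ) < n.factorial := by exact_mod_cast Nat.factorial_pos n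
  have h2 := deg_bound (w := 1) (κ := 1 / n.factorial) h1 hV hm hy hb le_rfl (expSet n)
    (fun r => by
      rw [card_expSet, div_mul_eq_mul_div, one_mul, div_le_iff₀ hfac]
      have := pow_le_fact_choose n r
      linarith)
    (fun r => F 0 ^ r) (fun r => pow_ne_zero r h0) (fun r α hα => by
      obtain ⟨s, -, rfl⟩ := Finset.mem_image.1 hα
      rw [← mon_cons_eq, ← mon_div h0, one_mul, pow_mul]
      exact mon_mem hF s)
  rw [Nat.cast_one, one_pow, mul_one, mul_one_div, div_le_iff₀ hfac] at h2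
  linarith

end Pool.Agent.TGh62
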