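import Pool.Agent.Lib.ALB.GNN
import Pool.Agent.Lib.TG_h62.Deg

/-!
# The degree of a finite dimensional space: `n! dim V ^ N = d_V N ^ n + O(N ^ (n-1))`
-/

set_option autoImplicit false

namespace Pool.Agent.TGh62

open Submodule Module

variable {k K : Type*} [Field k] [Field K] [Algebra k K] {n : ℕ}

/-- `n + 1` elements of `V` with `V ^ (t + 1) ≤ span g * V ^ t`. -/
theorem exists_gnn [Infinite k] (V : Submodule k K) [FiniteDimensional k V] (h1 : (1 : K) ∈ V)
    (hn : Algebra.trdeg k K ≤ n) : ∃ g : Fin (n + 1) → K, (∀ i, g i ∈ V) ∧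
      ∃ t, V ^ (t + 1) ≤ span k (Set.range g) * V ^ t := by
  classical
  obtain ⟨C, hC⟩ := aN_growth V h1 hn
  have hsum : ∀ T, ∑ t ∈ Finset.range T,
      finrank k ((V ^ t).map ((⊥ : Submodule k K)).mkQ) ≤ C * (T + 1) ^ (n + 1) := by
    intro T
    calc ∑ t ∈ Finset.range T, finrank k ((V ^ t).map ((⊥ : Submodule k K)).mkQ)
        ≤ ∑ t ∈ Finset.range T, C * (T + 1) ^ n := by
          refine Finset.sum_le_sum fun t ht => ?_
          have hfd : FiniteDimensional k (V ^ t : Submodule k K) := ALB.finite_pow _ _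
          refine (Submodule.finrank_map_le _ _).trans ((hC t).trans ?_)
          exact Nat.mul_le_mul le_rfl (Nat.pow_le_pow_left (by
            have := Finset.mem_range.1 ht
            omega) n)
      _ = T * (C * (T + 1) ^ n) := by simp
      _ ≤ (T + 1) * (C * (T + 1) ^ n) := Nat.mul_le_mul (Nat.le_succ T) le_rfl
      _ = C * (T + 1) ^ (n + 1) := by ring
  obtain ⟨u, s, h2, -⟩ := ALB.gnn (K := k) (M := Fin 0 → k) V (fun _ => ⊥)
    (fun t => by rw [Submodule.mul_bot]) (n + 1) C hsum (by simp) 0 (by
      rw [eq_top_iff]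
      intro x _
      rw [Subsingleton.elim x 0]
      exact Submodule.zero_mem _)
  refine ⟨fun i => u i, fun i => (u i).2, s, ?_⟩
  rw [sup_bot_eq] at h2
  exact h2

theorem exists_ne_zero_of_le {V : Submodule k K} (h1 : (1 : K) ∈ V) {g : Fin (n + 1) → K}
    {t : ℕ} (ht : V ^ (t + 1) ≤ span k (Set.range g) * V ^ t) : ∃ i, g i ≠ 0 := by
  by_contra h
  push Not at h
  have h2 : span k (Set.range g) = ⊥ := by
    rw [Submodule.span_eq_bot]
    rintro _ ⟨i, rfl⟩
    exact h i
  rw [h2, Submodule.bot_mul, le_bot_iff] at ht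
  have h3 : (1 : K) ∈ V ^ (t + 1) := by
    have := Submodule.pow_mem_pow V h1 (t + 1)
    rwa [one_pow] at this
  rw [ht] at h3
  exact one_ne_zero ((Submodule.mem_bot k).1 h3)

/-- `v / g 0` is integral over `k[g i / g 0]`. -/
theorem isIntegral_div {V : Submodule k K} [FiniteDimensional k V] (h1 : (1 : K) ∈ V)
    {g : Fin (n + 1) → K} (h0 : g 0 ≠ 0) {t : ℕ}
    (ht : V ^ (t + 1) ≤ span k (Set.range g) * V ^ t) {v : K} (hv : v ∈ V) :
    IsIntegral (Algebra.adjoin k (Set.range fun i : Fin n => g i.succ / g 0)) (v / g 0) := by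
  classical
  set R := Algebra.adjoin k (Set.range fun i : Fin n => g i.succ / g 0) with hR
  have hfd : FiniteDimensional k (V ^ t : Submodule k K) := ALB.finite_pow _ _
  -- the `R`-module generated by `V ^ t`
  let N : Submodule R K := span R ((V ^ t : Submodule k K) : Set K)
  have hN : N.FG := by
    obtain ⟨S, hS⟩ := (Module.Finite.iff_fg.mp hfd)
    refine ⟨S, ?_⟩
    refine le_antisymm (Submodule.span_mono ?_) ?_
    · rw [← hS]; exact subset_span
    · rw [Submodule.span_le]
      intro x hx
      rw [SetLike.mem_coe, ← hS] at hx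
      have h2 : span k (S : Set K) ≤ (span R (S : Set K)).restrictScalars k := by
        rw [Submodule.span_le]
        exact subset_span
      exact h2 hx
  have hmem : (1 : K) ∈ N := by
    refine subset_span ?_
    have := Submodule.pow_mem_pow V h1 t
    rwa [one_pow] at this
  refine isIntegral_of_smul_mem_submodule (M := K) (N := N) ?_ hN (v / g 0) ?_
  · intro h
    rw [h] at hmem
    exact one_ne_zero ((Submodule.mem_bot R).1 hmem)
  · intro x hx
    induction hx using Submodule.span_induction with
    | mem x hx =>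
      have h2 : v * x ∈ span k (Set.range g) * V ^ t := by
        refine ht ?_
        rw [pow_succ']
        exact Submodule.mul_mem_mul hv hx
      have h3 : ∀ z ∈ span k (Set.range g) * V ^ t, z / g 0 ∈ N := by
        intro z hz
        induction hz using Submodule.mul_induction_on' with
        | mem_mul_mem a ha b hb =>
          have h4 : a / g 0 ∈ R := by
            induction ha using Submodule.span_induction with
            | mem a ha =>
              obtain ⟨i, rfl⟩ := ha
              refine Fin.cases ?_ (fun i => ?_) i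
              · rw [div_self h0]; exact Subalgebra.one_mem _
              · exact Algebra.subset_adjoin ⟨i, rfl⟩
            | zero => rw [zero_div]; exact Subalgebra.zero_mem _
            | add a b _ _ ha hb => rw [add_div]; exact Subalgebra.add_mem _ ha hb
            | smul c a _ ha =>
              rw [smul_div_assoc]
              exact Subalgebra.smul_mem _ ha c
          have h5 : a * b / g 0 = (⟨a / g 0, h4⟩ : R) • b := by
            rw [Subalgebra.smul_def, smul_eq_mul]
            ring
          rw [h5]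
          exact Submodule.smul_mem _ _ (subset_span hb)
        | add a _ b _ ha hb => rw [add_div]; exact Submodule.add_mem _ ha hb
      have h4 := h3 _ h2
      have h5 : (v / g 0) • x = v * x / g 0 := by rw [smul_eq_mul]; ring
      rw [h5]
      exact h4
    | zero => rw [smul_zero]; exact Submodule.zero_mem _
    | add x y _ _ hx hy => rw [smul_add]; exact Submodule.add_mem _ hx hy
    | smul c x _ hx =>
      rw [smul_comm]
      exact Submodule.smul_mem _ c hx

theorem isAlgebraic_rf {V : Submodule k K} [FiniteDimensional k V] (h1 : (1 : K) ∈ V)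
    (hV : IntermediateField.adjoin k (V : Set K) = ⊤)
    {g : Fin (n + 1) → K} (h0 : g 0 ≠ 0) {t : ℕ}
    (ht : V ^ (t + 1) ≤ span k (Set.range g) * V ^ t) : Algebra.IsAlgebraic (rf k g) K := by
  -- `1 / g 0` is algebraic, hence all elements of `V`
  have hint : ∀ v ∈ V, IsAlgebraic (rf k g) (v / g 0) := by
    intro v hv
    have h2 := isIntegral_div h1 h0 ht hv
    have h3 : Algebra.adjoin k (Set.range fun i : Fin n => g i.succ / g 0) ≤
        (rf k g).toSubalgebra := IntermediateField.algebra_adjoin_le_adjoin _ _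
    obtain ⟨p, hp, hpx⟩ := h2
    refine IsIntegral.isAlgebraic ⟨p.map (Subalgebra.inclusion h3).toRingHom, hp.map _, ?_⟩
    rw [Polynomial.eval₂_map]
    exact hpx
  have hg0 : IsAlgebraic (rf k g) (g 0) := by
    have h2 := hint 1 h1
    rw [one_div] at h2
    have h3 := h2.inv
    rwa [inv_inv] at h3
  have hall : ∀ v ∈ V, IsAlgebraic (rf k g) v := by
    intro v hv
    have h2 := (hint v hv).mul hg0
    rwa [div_mul_cancel₀ _ h0] at h2
  have h2 : IntermediateField.adjoin (rf k g) (V : Set K) = ⊤ := by
    rw [eq_top_iff]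
    intro x _
    have h3 : x ∈ IntermediateField.adjoin k (V : Set K) := by rw [hV]; trivial
    have h4 : IntermediateField.adjoin k (V : Set K) ≤
        (IntermediateField.adjoin (rf k g) (V : Set K)).restrictScalars k := by
      rw [IntermediateField.adjoin_le_iff]
      exact IntermediateField.subset_adjoin _ _
    exact h4 h3
  have h3 := IntermediateField.isAlgebraic_adjoin (K := rf k g) (L := K) (S := (V : Set K))
    (fun v hv => (hall v hv).isIntegral)
  rw [h2] at h3
  refine ⟨fun x => ?_⟩
  have h4 := h3.isAlgebraic (⟨x, trivial⟩ : (⊤ : IntermediateField (rf k g) K))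
  exact h4.algebraMap

theorem finite_of_algebraic {V : Submodule k K} [FiniteDimensional k V]
    (hV : IntermediateField.adjoin k (V : Set K) = ⊤) (L : IntermediateField k K)
    [Algebra.IsAlgebraic L K] : FiniteDimensional L K := by
  classical
  obtain ⟨S, hS⟩ := (Module.Finite.iff_fg.mp (inferInstance : FiniteDimensional k V))
  have h2 : IntermediateField.adjoin L (S : Set K) = ⊤ := by
    rw [eq_top_iff]
    intro x _
    have h3 : x ∈ IntermediateField.adjoin k (V : Set K) := by rw [hV]; trivial
    have h4 : IntermediateField.adjoin k (V : Set K) ≤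
        (IntermediateField.adjoin L (S : Set K)).restrictScalars k := by
      rw [IntermediateField.adjoin_le_iff]
      intro v hv
      rw [SetLike.mem_coe, ← hS] at hv
      have h5 : span k (S : Set K) ≤ Subalgebra.toSubmodule
          (((IntermediateField.adjoin L (S : Set K)).restrictScalars k).toSubalgebra) := by
        rw [Submodule.span_le]
        exact IntermediateField.subset_adjoin _ _
      exact h5 hv
    exact h4 h3
  have h3 := IntermediateField.finiteDimensional_adjoin (K := L) (L := K) (S := (S : Set K))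
    (fun x _ => (Algebra.IsAlgebraic.isAlgebraic x).isIntegral)
  rw [h2] at h3
  exact IntermediateField.topEquiv.toLinearEquiv.finiteDimensional

open IntermediateField.algebraAdjoinAdjoin in
theorem algebraicIndependent_of {g : Fin (n + 1) → K}
    (h : Algebra.IsAlgebraic (rf k g) K) (hn : Algebra.trdeg k K = n) :
    AlgebraicIndependent k fun i : Fin n => g i.succ / g 0 := by
  have h2 : Algebra.IsAlgebraic (Algebra.adjoin k (Set.range fun i : Fin n => g i.succ / g 0)) K := by
    refine ⟨fun x => ?_⟩
    have hx : IsAlgebraic (IntermediateField.adjoin k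
      (Set.range fun i : Fin n => g i.succ / g 0)) x := h.isAlgebraic x
    exact (IsFractionRing.isAlgebraic_iff _ _ _).2 hx
  have h3 := Algebra.IsAlgebraic.isTranscendenceBasis_of_lift_le_trdeg_of_finite k
    (fun i : Fin n => g i.succ / g 0) (by
      rw [Cardinal.mk_fin, hn]
      simp)
  exact h3.1

theorem fact_choose_le (n r : ℕ) : n.factorial * (r + n).choose n ≤ (r + n) ^ n := by
  rw [← Nat.ascFactorial_eq_factorial_mul_choose]
  exact Nat.ascFactorial_le_pow_add r n

/-- lower bound for `dim V ^ N` by the degree of `K` over the ratios of `F` in `V ^ m`. -/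
theorem lower_aN {V : Submodule k K} [FiniteDimensional k V] (h1 : (1 : K) ∈ V)
    (hV : IntermediateField.adjoin k (V : Set K) = ⊤) {m : ℕ} {F : Fin (n + 1) → K}
    (hF : ∀ i, F i ∈ V ^ m) (h0 : F 0 ≠ 0)
    (hy : AlgebraicIndependent k fun i : Fin n => F i.succ / F 0) {D : ℕ} {b : Fin D → K}
    (hb : LinearIndependent (rf k F) b) : ∃ c, ∀ r, D * r ^ n ≤ n.factorial * aN V (m * r + c) := by
  obtain ⟨h, hh0, c, hc⟩ := exists_common V h1 hV b
  refine ⟨c, fun r => ?_⟩
  have hfd : FiniteDimensional k (V ^ (m * r + c) : Submodule k K) := ALB.finite_pow _ _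
  have h3 : (expSet n r).card * D ≤ aN V (m * r + c) := by
    refine card_mul_le hy (expSet n r) hb _ (mul_ne_zero (pow_ne_zero r h0) hh0) fun α hα j => ?_
    obtain ⟨s, -, rfl⟩ := Finset.mem_image.1 hα
    have h4 : F 0 ^ r * h * ymon (fun i : Fin n => F i.succ / F 0) (expo s) * b j =
      (F 0 ^ r * ymon (fun i : Fin n => F i.succ / F 0) (expo s)) * (h * b j) := by ring
    rw [h4, pow_add, ← mon_cons_eq, ← mon_div h0, pow_mul]
    exact Submodule.mul_mem_mul (mon_mem hF s) (hc j)
  rw [card_expSet] at h3
  have h4 : r ^ n ≤ n.factorial * (r + n).choose n := by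
    have := pow_le_fact_choose n r
    exact_mod_cast this
  calc D * r ^ n ≤ D * (n.factorial * (r + n).choose n) := Nat.mul_le_mul le_rfl h4
    _ = n.factorial * ((r + n).choose n * D) := by ring
    _ ≤ _ := Nat.mul_le_mul le_rfl h3

/-- **The degree of `V`.** -/
theorem exists_dV [Infinite k] (V : Submodule k K) [FiniteDimensional k V] (h1 : (1 : K) ∈ V)
    (hV : IntermediateField.adjoin k (V : Set K) = ⊤) (hn : Algebra.trdeg k K = n) :
    ∃ d c : ℕ, 0 < d ∧ (∀ N, n.factorial * finrank k (V ^ N : Submodule k K) ≤ d * (N + c) ^ n) ∧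
      (∀ N, c ≤ N → d * (N - c) ^ n ≤ n.factorial * finrank k (V ^ N : Submodule k K)) ∧
      (∀ m, 1 ≤ m → ∀ F : Fin (n + 1) → K, (∀ i, F i ∈ V ^ m) → F 0 ≠ 0 →
        (AlgebraicIndependent k fun i : Fin n => F i.succ / F 0) →
        ∀ (D : ℕ) (b : Fin D → K), LinearIndependent (rf k F) b → D ≤ d * m ^ n) := by
  classical
  obtain ⟨g', hg', t, ht'⟩ := exists_gnn V h1 hn.le
  obtain ⟨i₀, hi₀⟩ := exists_ne_zero_of_le h1 ht'
  let g : Fin (n + 1) → K := g' ∘ Equiv.swap 0 i₀
  have hgr : Set.range g = Set.range g' := by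
    simp only [g]
    exact (Equiv.swap 0 i₀).surjective.range_comp g'
  have hg : ∀ i, g i ∈ V := fun i => hg' _
  have h0 : g 0 ≠ 0 := by simpa [g] using hi₀
  have ht : V ^ (t + 1) ≤ span k (Set.range g) * V ^ t := by rw [hgr]; exact ht'
  have halg := isAlgebraic_rf h1 hV h0 ht
  have hfin : FiniteDimensional (rf k g) K := finite_of_algebraic hV (rf k g)
  have hy := algebraicIndependent_of (g := g) halg hn
  let b := Module.finBasis (rf k g) K
  set d := finrank (rf k g) K with hd
  have hd0 : 0 < d := Module.finrank_pos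
  have hf1 : FiniteDimensional k (1 : Submodule k K) := by
    rw [Submodule.one_eq_span]
    exact FiniteDimensional.span_singleton k (1 : K)
  obtain ⟨c₁, hc₁⟩ := grow_upper (E := 1) h0 hg ht b.span_eq
  have hup : ∀ N, n.factorial * aN V N ≤ d * (N + (c₁ + n)) ^ n := by
    intro N
    have h2 := hc₁ N
    rw [mul_one] at h2
    calc n.factorial * aN V N ≤ n.factorial * (d * (N + c₁ + n).choose n) :=
          Nat.mul_le_mul le_rfl h2
      _ = d * (n.factorial * ((N + c₁) + n).choose n) := by ring
      _ ≤ d * ((N + c₁) + n) ^ n := Nat.mul_le_mul le_rfl (fact_choose_le n _)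
      _ = _ := by rw [add_assoc N]
  obtain ⟨c₂, hc₂⟩ := lower_aN (m := 1) h1 hV (by simpa using hg) h0 hy b.linearIndependent
  refine ⟨d, max (c₁ + n) c₂, hd0, fun N => ?_, fun N hN => ?_, ?_⟩
  · exact (hup N).trans (Nat.mul_le_mul le_rfl (Nat.pow_le_pow_left (by omega) n))
  · have h2 := hc₂ (N - c₂)
    rw [one_mul, Nat.sub_add_cancel ((le_max_right _ _).trans hN)] at h2
    exact (Nat.mul_le_mul le_rfl (Nat.pow_le_pow_left (by omega) n)).trans h2
  · intro m hm F hF hF0 hFy D b' hb'
    obtain ⟨c₃, hc₃⟩ := lower_aN h1 hV hF hF0 hFy hb'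
    have h2 : ∀ r : ℕ, 1 ≤ r → (D : ℝ) * (r : ℝ) ^ n * ((1 : ℕ) : ℝ) ^ n ≤
        (d : ℝ) * ((m * 1 * r + (c₃ + (c₁ + n)) : ℕ) : ℝ) ^ n := by
      intro r _
      have h3 := (hc₃ r).trans (hup _)
      have h4 : (D : ℝ) * (r : ℝ) ^ n ≤ d * ((m * r + c₃ + (c₁ + n) : ℕ) : ℝ) ^ n := by
        exact_mod_cast h3
      rw [Nat.cast_one, one_pow, mul_one, mul_one, ← add_assoc (m * r)]
      exact h4
    have h3 := limit_le n 1 m (c₃ + (c₁ + n)) le_rfl h2
    exact_mod_cast h3

end Pool.Agent.TGh62
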