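import Pool.Agent.Lib.ALB.Growth

/-!
# Growth of the powers of a finite dimensional subspace: degrees

`K` a field over `k`.  For `f : Fin (n+1) → K` let `rf k f` be the subfield generated by the ratios
`f i / f 0`.  Lower and upper bounds for `dim (T ^ r * E)` in terms of `[K : k(f_i / f_0)]`.
-/

set_option autoImplicit false

namespace Pool.Agent.TGh62

open Submodule Module

section Mon

variable {K : Type*} [Field K] {n : ℕ}

/-- The monomial of degree `r` in the `f i` given by the multiset `s`. -/
def mon (f : Fin (n + 1) → K) {r : ℕ} (s : Sym (Fin (n + 1)) r) : K :=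
  ((s : Multiset (Fin (n + 1))).map f).prod

theorem card_sym (n r : ℕ) : Fintype.card (Sym (Fin (n + 1)) r) = (r + n).choose n := by
  rw [Sym.card_sym_eq_choose, Fintype.card_fin]
  have h1 : n + 1 + r - 1 = n + r := by omega
  rw [h1, add_comm n r, Nat.choose_symm_add]

theorem mon_smul (c : K) (f : Fin (n + 1) → K) {r : ℕ} (s : Sym (Fin (n + 1)) r) :
    mon (fun i => c * f i) s = c ^ r * mon f s := by
  unfold mon
  rw [Multiset.prod_map_mul, Multiset.map_const', Multiset.prod_replicate]
  congr 2
  exact s.2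

theorem mon_mem {k : Type*} [Field k] [Algebra k K] {T : Submodule k K} {f : Fin (n + 1) → K}
    (hf : ∀ i, f i ∈ T) {r : ℕ} (s : Sym (Fin (n + 1)) r) : mon f s ∈ T ^ r := by
  obtain ⟨s, hs⟩ := s
  unfold mon
  simp only [Sym.coe_mk]
  subst hs
  induction s using Multiset.induction_on with
  | empty =>
    simp only [Multiset.map_zero, Multiset.prod_zero, Multiset.card_zero, pow_zero]
    exact Submodule.one_le.mp le_rfl
  | cons a s ih =>
    rw [Multiset.map_cons, Multiset.prod_cons, Multiset.card_cons, pow_succ']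
    exact Submodule.mul_mem_mul (hf a) ih

theorem pow_le_span_mon {k : Type*} [Field k] [Algebra k K] (f : Fin (n + 1) → K) (r : ℕ) :
    (span k (Set.range f)) ^ r ≤ span k (Set.range (mon f (r := r))) := by
  induction r with
  | zero =>
    rw [pow_zero, Submodule.one_le]
    refine subset_span ⟨Sym.nil, ?_⟩
    simp [mon]
  | succ r ih =>
    rw [pow_succ']
    refine (mul_le_mul' le_rfl ih).trans ?_
    rw [Submodule.span_mul_span, Submodule.span_le]
    rintro _ ⟨_, ⟨i, rfl⟩, _, ⟨s, rfl⟩, rfl⟩
    refine subset_span ⟨Sym.cons i s, ?_⟩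
    simp only [mon, Sym.coe_cons, Multiset.map_cons, Multiset.prod_cons]

theorem finrank_pow_le {k : Type*} [Field k] [Algebra k K] (f : Fin (n + 1) → K) (r : ℕ) :
    finrank k ((span k (Set.range f)) ^ r : Submodule k K) ≤ (r + n).choose n := by
  have hfd : FiniteDimensional k (span k (Set.range (mon f (r := r)))) :=
    FiniteDimensional.span_of_finite k (Set.finite_range _)
  refine (Submodule.finrank_mono (pow_le_span_mon f r)).trans ?_
  refine (finrank_range_le_card _).trans ?_
  rw [card_sym]

/-- The exponents of `s` away from `0`. -/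
noncomputable def expo {r : ℕ} (s : Sym (Fin (n + 1)) r) : Fin n →₀ ℕ :=
  Finsupp.equivFunOnFinite.symm fun i => Multiset.count i.succ (s : Multiset (Fin (n + 1)))

theorem expo_injective {r : ℕ} : Function.Injective (expo (n := n) (r := r)) := by
  intro s t h
  have h1 : ∀ i : Fin n, Multiset.count i.succ (s : Multiset (Fin (n + 1))) =
      Multiset.count i.succ (t : Multiset (Fin (n + 1))) := by
    intro i
    have := DFunLike.congr_fun h i
    simpa [expo] using this
  apply Sym.coe_injective
  ext a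
  refine Fin.cases ?_ (fun i => h1 i) a
  have h2 : ∀ u : Sym (Fin (n + 1)) r, ∑ a : Fin (n + 1),
      Multiset.count a (u : Multiset (Fin (n + 1))) = r := by
    intro u
    rw [Multiset.sum_count_eq_card (fun a _ => Finset.mem_univ a)]
    exact u.2
  have h3 := h2 s
  have h4 := h2 t
  rw [Fin.sum_univ_succ] at h3 h4
  have h5 : ∑ i : Fin n, Multiset.count i.succ (s : Multiset (Fin (n + 1))) =
      ∑ i : Fin n, Multiset.count i.succ (t : Multiset (Fin (n + 1))) :=
    Finset.sum_congr rfl fun i _ => h1 i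
  omega

theorem mon_eq_aeval {k : Type*} [Field k] [Algebra k K] (y : Fin n → K) {r : ℕ}
    (s : Sym (Fin (n + 1)) r) :
    mon (Fin.cons 1 y : Fin (n + 1) → K) s =
      MvPolynomial.aeval y (MvPolynomial.monomial (expo s) (1 : k)) := by
  rw [MvPolynomial.aeval_monomial, map_one, one_mul]
  unfold mon
  rw [Finset.prod_multiset_map_count]
  have h1 : ∏ m ∈ (s : Multiset (Fin (n + 1))).toFinset,
      (Fin.cons 1 y : Fin (n + 1) → K) m ^ Multiset.count m (s : Multiset (Fin (n + 1))) =
      ∏ m : Fin (n + 1),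
      (Fin.cons 1 y : Fin (n + 1) → K) m ^ Multiset.count m (s : Multiset (Fin (n + 1))) := by
    refine Finset.prod_subset (Finset.subset_univ _) ?_
    intro x _ hx
    rw [Multiset.mem_toFinset] at hx
    rw [Multiset.count_eq_zero_of_notMem hx, pow_zero]
  rw [h1, Fin.prod_univ_succ]
  simp only [Fin.cons_zero, one_pow, one_mul, Fin.cons_succ]
  rw [Finsupp.prod_fintype _ _ (fun i => pow_zero _)]
  refine Finset.prod_congr rfl fun i _ => ?_
  simp [expo]

end Mon

section Lower

variable {k K : Type*} [Field k] [Field K] [Algebra k K] {n : ℕ}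

/-- The field generated by the ratios of the `f i`. -/
def rf (k : Type*) {K : Type*} [Field k] [Field K] [Algebra k K] {n : ℕ} (f : Fin (n + 1) → K) :
    IntermediateField k K :=
  IntermediateField.adjoin k (Set.range fun i : Fin n => f i.succ / f 0)

theorem linearIndependent_mon {y : Fin n → K} (hy : AlgebraicIndependent k y) (r : ℕ) :
    LinearIndependent k (mon (Fin.cons 1 y : Fin (n + 1) → K) (r := r)) := by
  have h1 : LinearIndependent k fun s : Sym (Fin (n + 1)) r =>
      (MvPolynomial.monomial (expo s) (1 : k) : MvPolynomial (Fin n) k) := by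
    have h2 := (MvPolynomial.basisMonomials (Fin n) k).linearIndependent
    have h3 := h2.comp (expo (n := n) (r := r)) expo_injective
    have h4 : ((MvPolynomial.basisMonomials (Fin n) k) ∘ expo (n := n) (r := r)) =
        fun s : Sym (Fin (n + 1)) r =>
        (MvPolynomial.monomial (expo s) (1 : k) : MvPolynomial (Fin n) k) := by
      funext s
      simp
    rw [← h4]
    exact h3
  have h2 := h1.map' (MvPolynomial.aeval y : MvPolynomial (Fin n) k →ₐ[k] K).toLinearMap
    (LinearMap.ker_eq_bot.2 hy)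
  have h3 : (mon (Fin.cons 1 y : Fin (n + 1) → K) (r := r)) =
      (MvPolynomial.aeval y : MvPolynomial (Fin n) k →ₐ[k] K).toLinearMap ∘
      fun s : Sym (Fin (n + 1)) r =>
      (MvPolynomial.monomial (expo s) (1 : k) : MvPolynomial (Fin n) k) := by
    funext s
    exact mon_eq_aeval y s
  rw [h3]
  exact h2

theorem mon_div {f : Fin (n + 1) → K} (h0 : f 0 ≠ 0) {r : ℕ} (s : Sym (Fin (n + 1)) r) :
    mon f s = f 0 ^ r * mon (Fin.cons 1 (fun i : Fin n => f i.succ / f 0) : Fin (n + 1) → K) s := by
  rw [← mon_smul]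
  congr 1
  funext i
  refine Fin.cases ?_ (fun i => ?_) i
  · simp
  · simp only [Fin.cons_succ]
    field_simp

/-- **(G1)**: lower bound. -/
theorem grow_lower {f : Fin (n + 1) → K} (h0 : f 0 ≠ 0)
    (hf : AlgebraicIndependent k fun i : Fin n => f i.succ / f 0) {T E : Submodule k K}
    [FiniteDimensional k T] [FiniteDimensional k E] (hT : ∀ i, f i ∈ T) {D : ℕ} {b : Fin D → K}
    (hb : LinearIndependent (rf k f) b) (hE : ∀ j, b j ∈ E) (r : ℕ) :
    D * (r + n).choose n ≤ finrank k (T ^ r * E : Submodule k K) := by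
  classical
  have hfd : FiniteDimensional k (T ^ r * E : Submodule k K) :=
    Module.Finite.iff_fg.mpr ((Submodule.FG.pow (Module.Finite.iff_fg.mp inferInstance) r).mul
      (Module.Finite.iff_fg.mp inferInstance))
  -- the monomials in the ratios, in `rf k f`
  let y : Fin n → rf k f := fun i => ⟨f i.succ / f 0,
    IntermediateField.subset_adjoin k _ ⟨i, rfl⟩⟩
  have hy : AlgebraicIndependent k y := by
    have h1 : AlgebraicIndependent k ((rf k f).val ∘ y) := hf
    exact h1.of_comp _
  have h1 := linearIndependent_smul (linearIndependent_mon hy r) hb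
  have h2 : LinearIndependent k (fun p : Sym (Fin (n + 1)) r × Fin D =>
      f 0 ^ r * (((mon (Fin.cons 1 y : Fin (n + 1) → rf k f) p.1 : rf k f) : K) * b p.2)) := by
    have h3 : LinearIndependent k (fun p : Sym (Fin (n + 1)) r × Fin D =>
      (((mon (Fin.cons 1 y : Fin (n + 1) → rf k f) p.1 : rf k f) : K) * b p.2)) := h1
    have h4 := h3.map' (LinearMap.mulLeft k (f 0 ^ r))
      (LinearMap.ker_eq_bot.2 (mul_right_injective₀ (pow_ne_zero r h0)))
    exact h4
  have h3 : ∀ p : Sym (Fin (n + 1)) r × Fin D,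
      f 0 ^ r * (((mon (Fin.cons 1 y : Fin (n + 1) → rf k f) p.1 : rf k f) : K) * b p.2) =
      mon f p.1 * b p.2 := by
    intro p
    rw [← mul_assoc, mon_div h0]
    congr 2
    unfold mon
    have h5 : ((((p.1 : Multiset (Fin (n + 1))).map (Fin.cons 1 y : Fin (n + 1) → rf k f)).prod :
      rf k f) : K) = (rf k f).val
      (((p.1 : Multiset (Fin (n + 1))).map (Fin.cons 1 y : Fin (n + 1) → rf k f)).prod) := rfl
    rw [h5, map_multiset_prod, Multiset.map_map]
    congr 2
    funext i
    refine Fin.cases ?_ (fun i => ?_) i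
    · simp
    · simp [y]
  have h4 : ∀ p : Sym (Fin (n + 1)) r × Fin D,
      f 0 ^ r * (((mon (Fin.cons 1 y : Fin (n + 1) → rf k f) p.1 : rf k f) : K) * b p.2) ∈
      T ^ r * E := by
    intro p
    rw [h3]
    exact Submodule.mul_mem_mul (mon_mem hT p.1) (hE p.2)
  have h5 : LinearIndependent k (fun p : Sym (Fin (n + 1)) r × Fin D =>
      (⟨_, h4 p⟩ : (T ^ r * E : Submodule k K))) := by
    refine LinearIndependent.of_comp (T ^ r * E).subtype ?_
    exact h2
  have h6 := h5.fintype_card_le_finrank
  rw [Fintype.card_prod, card_sym, Fintype.card_fin, mul_comm] at h6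
  exact h6

end Lower

section Upper

variable {k K : Type*} [Field k] [Field K] [Algebra k K] {n : ℕ}

theorem one_le_span_cons (y : Fin n → K) :
    (1 : Submodule k K) ≤ span k (Set.range (Fin.cons 1 y : Fin (n + 1) → K)) := by
  rw [Submodule.one_le]
  exact subset_span ⟨0, by simp⟩

theorem pow_mono_cons (y : Fin n → K) {a b : ℕ} (hab : a ≤ b) :
    (span k (Set.range (Fin.cons 1 y : Fin (n + 1) → K))) ^ a ≤
      (span k (Set.range (Fin.cons 1 y : Fin (n + 1) → K))) ^ b :=
  pow_le_pow_right₀ (one_le_span_cons y) hab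

theorem adjoin_mem_pow (y : Fin n → K) {a : K} (ha : a ∈ Algebra.adjoin k (Set.range y)) :
    ∃ e, a ∈ (span k (Set.range (Fin.cons 1 y : Fin (n + 1) → K))) ^ e := by
  induction ha using Algebra.adjoin_induction with
  | mem x hx =>
    obtain ⟨i, rfl⟩ := hx
    exact ⟨1, by rw [pow_one]; exact subset_span ⟨i.succ, by simp⟩⟩
  | algebraMap r =>
    refine ⟨0, ?_⟩
    rw [pow_zero]
    exact Submodule.mem_one.2 ⟨r, rfl⟩
  | add x y' _ _ hx hy =>
    obtain ⟨a, ha⟩ := hx
    obtain ⟨b, hb⟩ := hy
    exact ⟨max a b, Submodule.add_mem _ (pow_mono_cons y (le_max_left a b) ha)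
      (pow_mono_cons y (le_max_right a b) hb)⟩
  | mul x y' _ _ hx hy =>
    obtain ⟨a, ha⟩ := hx
    obtain ⟨b, hb⟩ := hy
    refine ⟨a + b, ?_⟩
    rw [pow_add]
    exact Submodule.mul_mem_mul ha hb

/-- Common denominators: a finite dimensional space `X` which is contained in the span of the `b j`
over the field `k(y)` is, up to a factor `h`, contained in `∑ Y ^ e * b j`. -/
theorem exists_denominator (y : Fin n → K) {D : ℕ} (b : Fin D → K) (X : Submodule k K)
    [FiniteDimensional k X]
    (hX : ∀ x ∈ X, x ∈ span (IntermediateField.adjoin k (Set.range y)) (Set.range b)) :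
    ∃ h : K, h ≠ 0 ∧ ∃ e, ∀ x ∈ X,
      h * x ∈ (span k (Set.range (Fin.cons 1 y : Fin (n + 1) → K))) ^ e * span k (Set.range b) := by
  classical
  set L := IntermediateField.adjoin k (Set.range y) with hL
  set R := Algebra.adjoin k (Set.range y) with hR
  set Y := span k (Set.range (Fin.cons 1 y : Fin (n + 1) → K)) with hY
  -- every element of `L` is a quotient
  have hfrac : ∀ q : L, ∃ u ∈ R, ∃ w ∈ R, w ≠ 0 ∧ (q : K) * w = u := by
    intro q
    obtain ⟨u, hu, w, hw, hq⟩ := IntermediateField.mem_adjoin_iff_div.1 q.2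
    rcases eq_or_ne w 0 with h0 | h0
    · refine ⟨0, Subalgebra.zero_mem _, 1, Subalgebra.one_mem _, one_ne_zero, ?_⟩
      rw [hq, h0, div_zero, zero_mul]
    · exact ⟨u, hu, w, hw, h0, by rw [hq, div_mul_cancel₀ _ h0]⟩
  -- one element
  have hone : ∀ x ∈ X, ∃ h : K, h ≠ 0 ∧ h ∈ R ∧ ∃ e, h * x ∈ Y ^ e * span k (Set.range b) := by
    intro x hx
    obtain ⟨c, hc⟩ := (Submodule.mem_span_range_iff_exists_fun L).1 (hX x hx)
    choose u hu w hw hw0 huw using fun j => hfrac (c j)
    refine ⟨∏ j, w j, Finset.prod_ne_zero_iff.2 fun j _ => hw0 j,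
      Subalgebra.prod_mem _ fun j _ => hw j, ?_⟩
    have h1 : ∀ j, ∃ e, (∏ j, w j) * (c j : K) ∈ Y ^ e := by
      intro j
      refine adjoin_mem_pow y ?_
      rw [← Finset.prod_erase_mul _ _ (Finset.mem_univ j), mul_assoc, mul_comm (w j), huw]
      exact Subalgebra.mul_mem _ (Subalgebra.prod_mem _ fun j _ => hw j) (hu j)
    choose e he using h1
    refine ⟨Finset.univ.sup e, ?_⟩
    rw [← hc, Finset.mul_sum]
    refine Submodule.sum_mem _ fun j _ => ?_
    have h2 : (∏ j, w j) * (c j • b j) = ((∏ j, w j) * (c j : K)) * b j := by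
      rw [mul_assoc]
      rfl
    rw [h2]
    exact Submodule.mul_mem_mul (pow_mono_cons y (Finset.le_sup (Finset.mem_univ j)) (he j))
      (subset_span ⟨j, rfl⟩)
  -- a basis of `X`
  let β := Module.finBasis k X
  choose h hh0 hhR e he using fun i => hone (β i) (β i).2
  have hR' : ∀ i, ∃ e', (∏ i' ∈ Finset.univ.erase i, h i') ∈ Y ^ e' := fun i =>
    adjoin_mem_pow y (Subalgebra.prod_mem _ fun j _ => hhR j)
  choose e' he' using hR'
  refine ⟨∏ i, h i, Finset.prod_ne_zero_iff.2 fun i _ => hh0 i,
    Finset.univ.sup fun i => e' i + e i, fun x hx => ?_⟩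
  have h1 : (⟨x, hx⟩ : X) = ∑ i, β.repr ⟨x, hx⟩ i • β i := (β.sum_repr _).symm
  have h2 : x = ∑ i, β.repr ⟨x, hx⟩ i • (β i : K) := by
    have h3 := congrArg X.subtype h1
    rw [map_sum] at h3
    exact h3
  rw [h2, Finset.mul_sum]
  refine Submodule.sum_mem _ fun i _ => ?_
  rw [mul_smul_comm]
  refine Submodule.smul_mem _ _ ?_
  rw [← Finset.prod_erase_mul _ _ (Finset.mem_univ i), mul_assoc]
  have h3 := Submodule.mul_mem_mul (he' i) (he i)
  rw [← mul_assoc, ← pow_add] at h3
  exact mul_le_mul' (pow_mono_cons y (Finset.le_sup (f := fun i => e' i + e i)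
    (Finset.mem_univ i))) le_rfl h3

/-- Degree bound: `X ≤ span_{k(y)} (b)`; then `dim (span (1, y) ^ N * X) ≤ D * choose (N+e+n) n`. -/
theorem finrank_pow_mul_le (y : Fin n → K) {D : ℕ} (b : Fin D → K) (X : Submodule k K)
    [FiniteDimensional k X]
    (hX : ∀ x ∈ X, x ∈ span (IntermediateField.adjoin k (Set.range y)) (Set.range b)) :
    ∃ e, ∀ N, finrank k ((span k (Set.range (Fin.cons 1 y : Fin (n + 1) → K))) ^ N * X :
      Submodule k K) ≤ D * (N + e + n).choose n := by
  classical
  obtain ⟨h, h0, e, he⟩ := exists_denominator y b X hX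
  refine ⟨e, fun N => ?_⟩
  set Y := span k (Set.range (Fin.cons 1 y : Fin (n + 1) → K)) with hY
  have hfY : FiniteDimensional k Y := FiniteDimensional.span_of_finite k (Set.finite_range _)
  have hfb : FiniteDimensional k (span k (Set.range b)) :=
    FiniteDimensional.span_of_finite k (Set.finite_range _)
  have hf1 : FiniteDimensional k (Y ^ (N + e) : Submodule k K) := ALB.finite_pow _ _
  have hf2 : FiniteDimensional k (Y ^ (N + e) * span k (Set.range b) : Submodule k K) :=
    Module.Finite.iff_fg.mpr ((Module.Finite.iff_fg.mp hf1).mul (Module.Finite.iff_fg.mp hfb))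
  have h1 : span k {h} * (Y ^ N * X) ≤ Y ^ (N + e) * span k (Set.range b) := by
    rw [mul_left_comm]
    have h2 : span k {h} * X ≤ Y ^ e * span k (Set.range b) := by
      rw [Submodule.mul_le]
      intro a ha x hx
      obtain ⟨c, rfl⟩ := Submodule.mem_span_singleton.1 ha
      rw [smul_mul_assoc]
      exact Submodule.smul_mem _ _ (he x hx)
    refine (mul_le_mul' le_rfl h2).trans ?_
    rw [← mul_assoc, ← pow_add]
  have h2 := Submodule.finrank_mono h1
  rw [ALB.finrank_span_mul h0] at h2
  refine h2.trans ((ALB.finrank_mul_le _ _).trans ?_)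
  rw [mul_comm]
  refine Nat.mul_le_mul ?_ ?_
  · refine (finrank_range_le_card _).trans ?_
    rw [Fintype.card_fin]
  · exact finrank_pow_le _ _

/-- **(G2), upper bound.** `V ^ (t+1) ≤ span (g) * V ^ t`, `b` generates `E V^t` over `k(g_i/g_0)`.
Then `dim (V ^ N * E) ≤ D * choose (N + c + n) n`. -/
theorem grow_upper {V E : Submodule k K} [FiniteDimensional k V] [FiniteDimensional k E]
    {g : Fin (n + 1) → K} (h0 : g 0 ≠ 0) (hgV : ∀ i, g i ∈ V) {t : ℕ}
    (ht : V ^ (t + 1) ≤ span k (Set.range g) * V ^ t) {D : ℕ} {b : Fin D → K}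
    (hb : span (rf k g) (Set.range b) = ⊤) :
    ∃ c, ∀ N, finrank k (V ^ N * E : Submodule k K) ≤ D * (N + c + n).choose n := by
  classical
  let y : Fin n → K := fun i => g i.succ / g 0
  set Y := span k (Set.range (Fin.cons 1 y : Fin (n + 1) → K)) with hY
  have hgY : span k (Set.range g) = span k {g 0} * Y := by
    rw [hY, Submodule.span_mul_span]
    congr 1
    ext x
    constructor
    · rintro ⟨i, rfl⟩
      refine ⟨g 0, rfl, (Fin.cons 1 y : Fin (n + 1) → K) i, ⟨i, rfl⟩, ?_⟩
      refine Fin.cases ?_ (fun i => ?_) i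
      · simp
      · simp only [Fin.cons_succ, y]
        field_simp
    · rintro ⟨_, rfl, _, ⟨i, rfl⟩, rfl⟩
      refine ⟨i, ?_⟩
      refine Fin.cases ?_ (fun i => ?_) i
      · simp
      · simp only [Fin.cons_succ, y]
        field_simp
  have hpow : ∀ N, V ^ (t + N) ≤ span k (Set.range g) ^ N * V ^ t := by
    intro N
    induction N with
    | zero => rw [add_zero, pow_zero, one_mul]
    | succ N ih =>
      rw [← add_assoc, pow_succ']
      refine (mul_le_mul' le_rfl ih).trans ?_
      rw [mul_left_comm, ← pow_succ' V t, pow_succ (span k (Set.range g)) N, mul_assoc]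
      exact mul_le_mul' le_rfl ht
  have hfX : FiniteDimensional k (V ^ t * E : Submodule k K) :=
    Module.Finite.iff_fg.mpr ((Submodule.FG.pow (Module.Finite.iff_fg.mp inferInstance) t).mul
      (Module.Finite.iff_fg.mp inferInstance))
  obtain ⟨e, he⟩ := finrank_pow_mul_le y b (V ^ t * E) (fun x _ => by
    have h1 : x ∈ (⊤ : Submodule (rf k g) K) := Submodule.mem_top
    rw [← hb] at h1
    exact h1)
  have hV0 : V ≠ ⊥ := by
    rintro rfl
    exact h0 (by simpa using hgV 0)
  -- small exponents
  have hmono : ∀ N, finrank k (V ^ N * E : Submodule k K) ≤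
      finrank k (V ^ (t + N) * E : Submodule k K) := by
    intro N
    have hfX' : FiniteDimensional k (V ^ (t + N) * E : Submodule k K) :=
      Module.Finite.iff_fg.mpr ((Submodule.FG.pow (Module.Finite.iff_fg.mp inferInstance) _).mul
        (Module.Finite.iff_fg.mp inferInstance))
    have h1 : span k {g 0 ^ t} * (V ^ N * E) ≤ V ^ (t + N) * E := by
      rw [pow_add, mul_assoc]
      refine mul_le_mul' ?_ le_rfl
      rw [Submodule.span_singleton_le_iff_mem]
      exact Submodule.pow_mem_pow V (hgV 0) t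
    have h2 := Submodule.finrank_mono h1
    rwa [ALB.finrank_span_mul (pow_ne_zero t h0)] at h2
  refine ⟨e, fun N => (hmono N).trans ?_⟩
  have hfX' : FiniteDimensional k (span k {g 0 ^ N} * (Y ^ N * (V ^ t * E)) : Submodule k K) := by
    have hfY : FiniteDimensional k Y := FiniteDimensional.span_of_finite k (Set.finite_range _)
    exact Module.Finite.iff_fg.mpr ((Submodule.fg_span_singleton _).mul
      ((Submodule.FG.pow (Module.Finite.iff_fg.mp hfY) _).mul (Module.Finite.iff_fg.mp hfX)))
  have h1 : V ^ (t + N) * E ≤ span k {g 0 ^ N} * (Y ^ N * (V ^ t * E)) := by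
    refine (mul_le_mul' (hpow N) le_rfl).trans ?_
    rw [hgY, mul_pow, ALB.span_pow, mul_assoc, mul_assoc]
  have h2 := Submodule.finrank_mono h1
  rw [ALB.finrank_span_mul (pow_ne_zero N h0)] at h2
  exact h2.trans (he N)

end Upper

end Pool.Agent.TGh62
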